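import Pool.Agent.V1178.RS.Round
set_option autoImplicit false

/-! Decreasing functions of the distance to a point of the cube. -/

namespace Pool.Agent.V1178.RS

open MeasureTheory Set
open scoped ENNReal NNReal

variable {m : ℕ}

/-- the square of the distance -/
def dsq (c v : Fin m → ℝ) : ℝ := ∑ i, (v i - c i) ^ 2

lemma dsq_nonneg (c v : Fin m → ℝ) : 0 ≤ dsq c v := Finset.sum_nonneg fun i _ => sq_nonneg _

lemma dsq_eq_zero {c v : Fin m → ℝ} (h : dsq c v = 0) : v = c := by
  unfold dsq at h
  rw [Finset.sum_eq_zero_iff_of_nonneg fun i _ => sq_nonneg _] at h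
  ext i
  have := h i (Finset.mem_univ i)
  have h2 : v i - c i = 0 := by
    exact pow_eq_zero_iff (two_ne_zero) |>.1 this
  linarith

lemma dsq_convex (c : Fin m → ℝ) {v w : Fin m → ℝ} {a b : ℝ} (ha : 0 ≤ a) (hb : 0 ≤ b)
    (hab : a + b = 1) : dsq c (a • v + b • w) ≤ a * dsq c v + b * dsq c w := by
  unfold dsq
  rw [Finset.mul_sum, Finset.mul_sum, ← Finset.sum_add_distrib]
  apply Finset.sum_le_sum
  intro i _
  simp only [Pi.add_apply, Pi.smul_apply, smul_eq_mul]
  obtain ⟨x, hx⟩ : ∃ x, x = v i - c i := ⟨_, rfl⟩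
  obtain ⟨y, hy⟩ : ∃ y, y = w i - c i := ⟨_, rfl⟩
  have e : a * v i + b * w i - c i = a * x + b * y := by
    rw [hx, hy]
    linear_combination (c i) * hab
  rw [← hx, ← hy, e]
  have hb' : b = 1 - a := by linarith
  rw [hb']
  nlinarith [mul_nonneg ha (show 0 ≤ 1 - a by linarith), sq_nonneg (x - y)]

/-- the superlevel sets are round -/
lemma radial_round (hm : 1 ≤ m) {c : Fin m → ℝ} (hc : c ∈ Q m) {F : ℝ → ℝ}
    (hF : ∀ x y, 0 < x → x ≤ y → F y ≤ F x) (s : ℝ) :
    {v | v ∈ Q m ∧ v ≠ c ∧ s < F (dsq c v)} = ∅ ∨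
      Round (4 * m + 1) {v | v ∈ Q m ∧ (v = c ∨ s < F (dsq c v))} := by
  have hm' : (1 : ℝ) ≤ m := by exact_mod_cast hm
  have hm0 : (0 : ℝ) < m := by linarith
  rcases eq_empty_or_nonempty {v | v ∈ Q m ∧ v ≠ c ∧ s < F (dsq c v)} with hE | ⟨w, hwQ, hwc, hws⟩
  · exact Or.inl hE
  · right
    have hpos : ∀ v, v ≠ c → 0 < dsq c v := fun v hv =>
      lt_of_le_of_ne (dsq_nonneg c v) fun h => hv (dsq_eq_zero h.symm)
    have hQ1 : ∀ v ∈ Q m, ∀ i, |v i| ≤ 1 := fun v hv i => abs_le.2 ⟨hv.1 i, hv.2 i⟩
    have hle4 : ∀ v ∈ Q m, dsq c v ≤ 4 * m := by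
      intro v hv
      unfold dsq
      calc ∑ i, (v i - c i) ^ 2 ≤ ∑ _i : Fin m, (4 : ℝ) := by
            apply Finset.sum_le_sum
            intro i _
            have h1 := abs_le.1 (hQ1 v hv i)
            have h2 := abs_le.1 (hQ1 c hc i)
            nlinarith
        _ = 4 * m := by
            rw [Finset.sum_const, Finset.card_univ, Fintype.card_fin, nsmul_eq_mul]
            ring
    obtain ⟨T, hT⟩ : ∃ T : Set ℝ, T = {x : ℝ | 0 < x ∧ x ≤ 4 * m ∧ s < F x} := ⟨_, rfl⟩
    have hwT : dsq c w ∈ T := by rw [hT]; exact ⟨hpos w hwc, hle4 w hwQ, hws⟩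
    have hTne : T.Nonempty := ⟨_, hwT⟩
    have hTb : BddAbove T := ⟨4 * m, fun x hx => by rw [hT] at hx; exact hx.2.1⟩
    obtain ⟨X, hX⟩ : ∃ X, X = sSup T := ⟨_, rfl⟩
    have hX0 : 0 < X := lt_of_lt_of_le (hpos w hwc) (by rw [hX]; exact le_csSup hTb hwT)
    have hX4 : X ≤ 4 * m := by
      rw [hX]
      exact csSup_le hTne fun x hx => by rw [hT] at hx; exact hx.2.1
    obtain ⟨R, hR⟩ : ∃ R, R = Real.sqrt X := ⟨_, rfl⟩
    have hR0 : 0 < R := by rw [hR]; exact Real.sqrt_pos.2 hX0
    have hR2 : R ^ 2 = X := by rw [hR]; exact Real.sq_sqrt hX0.le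
    have hR4 : R ≤ 4 * m := by nlinarith
    obtain ⟨t, ht⟩ : ∃ t, t = R / (4 * m) := ⟨_, rfl⟩
    have ht0 : 0 < t := by rw [ht]; positivity
    have ht1 : t ≤ 1 := by
      rw [ht, div_le_one (by positivity)]
      exact hR4
    have hRt : R = 4 * m * t := by rw [ht]; field_simp
    refine ⟨?_, (1 - t) • c, t, ht0, ?_, ?_⟩
    · -- convexity
      rintro v ⟨hvQ, hv⟩ z ⟨hzQ, hz⟩ a b ha hb hab
      refine ⟨convex_Icc _ _ hvQ hzQ ha hb hab, ?_⟩
      by_cases hcc : a • v + b • z = c
      · exact Or.inl hcc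
      · right
        have h1 := dsq_convex c (v := v) (w := z) ha hb hab
        have h2 := hpos _ hcc
        rcases le_total (dsq c v) (dsq c z) with h | h
        · have h3 : dsq c (a • v + b • z) ≤ dsq c z := by
            calc _ ≤ a * dsq c v + b * dsq c z := h1
              _ ≤ a * dsq c z + b * dsq c z := by gcongr
              _ = _ := by rw [← add_mul, hab, one_mul]
          have h4 : z ≠ c := by
            intro hzc
            have : dsq c z = 0 := by rw [hzc]; unfold dsq; simp
            linarith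
          have h5 : s < F (dsq c z) := hz.resolve_left h4
          exact lt_of_lt_of_le h5 (hF _ _ h2 h3)
        · have h3 : dsq c (a • v + b • z) ≤ dsq c v := by
            calc _ ≤ a * dsq c v + b * dsq c z := h1
              _ ≤ a * dsq c v + b * dsq c v := by gcongr
              _ = _ := by rw [← add_mul, hab, one_mul]
          have h4 : v ≠ c := by
            intro hzc
            have : dsq c v = 0 := by rw [hzc]; unfold dsq; simp
            linarith
          have h5 : s < F (dsq c v) := hv.resolve_left h4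
          exact lt_of_lt_of_le h5 (hF _ _ h2 h3)
    · -- the inner cube
      intro v hv
      rw [Metric.mem_closedBall, dist_pi_le_iff ht0.le] at hv
      have hvi : ∀ i, |v i - (1 - t) * c i| ≤ t := fun i => by
        have := hv i
        rwa [Real.dist_eq] at this
      refine ⟨⟨fun i => ?_, fun i => ?_⟩, ?_⟩
      · have h1 := (abs_le.1 (hvi i)).1
        have h2 := (abs_le.1 (hQ1 c hc i)).1
        nlinarith
      · have h1 := (abs_le.1 (hvi i)).2
        have h2 := (abs_le.1 (hQ1 c hc i)).2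
        nlinarith
      · by_cases hvc : v = c
        · exact Or.inl hvc
        · right
          have h1 : dsq c v < X := by
            calc dsq c v ≤ ∑ _i : Fin m, (2 * t) ^ 2 := by
                  unfold dsq
                  apply Finset.sum_le_sum
                  intro i _
                  have h1 := abs_le.1 (hvi i)
                  have h2 := abs_le.1 (hQ1 c hc i)
                  have h3 : |v i - c i| ≤ 2 * t := by
                    rw [abs_le]
                    constructor <;> nlinarith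
                  rw [← sq_abs]
                  exact pow_le_pow_left₀ (abs_nonneg _) h3 2
              _ = m * (2 * t) ^ 2 := by
                  rw [Finset.sum_const, Finset.card_univ, Fintype.card_fin, nsmul_eq_mul]
              _ < X := by
                  rw [← hR2, hRt]
                  have h4 : 0 < t ^ 2 := by positivity
                  nlinarith
          rw [hX] at h1
          obtain ⟨x, hxT, hx⟩ := exists_lt_of_lt_csSup hTne h1
          rw [hT] at hxT
          exact lt_of_lt_of_le hxT.2.2 (hF _ _ (hpos v hvc) hx.le)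
    · -- the outer cube
      rintro v ⟨hvQ, hv⟩
      have hle : dsq c v ≤ X := by
        by_cases hvc : v = c
        · rw [hvc]
          have : dsq c c = 0 := by unfold dsq; simp
          linarith
        · rw [hX]
          apply le_csSup hTb
          rw [hT]
          exact ⟨hpos v hvc, hle4 v hvQ, hv.resolve_left hvc⟩
      have hRpos : 0 ≤ (4 * (m : ℝ) + 1) * t := by positivity
      rw [Metric.mem_closedBall, dist_pi_le_iff hRpos]
      intro i
      rw [Real.dist_eq]
      have h1 : (v i - c i) ^ 2 ≤ R ^ 2 := by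
        rw [hR2]
        refine le_trans ?_ hle
        unfold dsq
        exact Finset.single_le_sum (f := fun i => (v i - c i) ^ 2) (fun i _ => sq_nonneg _)
          (Finset.mem_univ i)
      have h2 := abs_le.1 (abs_le_of_sq_le_sq h1 hR0.le)
      have h3 := abs_le.1 (hQ1 c hc i)
      show |v i - ((1 - t) • c) i| ≤ (4 * (m : ℝ) + 1) * t
      rw [Pi.smul_apply, smul_eq_mul, abs_le]
      constructor <;> nlinarith

/-- the radial functions have round superlevel sets -/
lemma radial_union (hm : 1 ≤ m) {c : Fin m → ℝ} (hc : c ∈ Q m) {F : ℝ → ℝ}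
    (hF : ∀ x y, 0 < x → x ≤ y → F y ≤ F x) (hF0 : ∀ x, 0 < x → 0 ≤ F x) (b : ℝ)
    {g : (Fin m → ℝ) → ℝ} (hg : ∀ v ∈ Q m, v ≠ c → g v = b * F (dsq c v)) {s : ℝ} (hs : 0 ≤ s) :
    RoundUnion 1 (4 * m + 1) {v | v ∈ Q m ∧ s < g v} := by
  have hpos : ∀ v, v ≠ c → 0 < dsq c v := fun v hv =>
    lt_of_le_of_ne (dsq_nonneg c v) fun h => hv (dsq_eq_zero h.symm)
  have hne : Nonempty (Fin m) := ⟨⟨0, hm⟩⟩
  have hnull : ∀ᵐ v : Fin m → ℝ, v ≠ c := by
    rw [ae_iff]
    have : {v : Fin m → ℝ | ¬ v ≠ c} = {c} := by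
      ext v
      simp
    rw [this]
    exact measure_singleton c
  rcases le_or_gt b 0 with hb | hb
  · refine ⟨fun _ => ∅, fun _ => Or.inl rfl, ?_⟩
    filter_upwards [hnull] with v hv
    apply propext
    show (v ∈ Q m ∧ s < g v) ↔ v ∈ ⋃ i : Fin 1, (∅ : Set (Fin m → ℝ))
    simp only [mem_iUnion, mem_empty_iff_false, exists_false, iff_false, not_and, not_lt]
    intro h1
    rw [hg v h1 hv]
    have := hF0 _ (hpos v hv)
    nlinarith
  · rcases radial_round hm hc hF (s / b) with h | h
    · refine ⟨fun _ => ∅, fun _ => Or.inl rfl, ?_⟩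
      filter_upwards [hnull] with v hv
      apply propext
      show (v ∈ Q m ∧ s < g v) ↔ v ∈ ⋃ i : Fin 1, (∅ : Set (Fin m → ℝ))
      simp only [mem_iUnion, mem_empty_iff_false, exists_false, iff_false, not_and, not_lt]
      intro h1
      rw [hg v h1 hv]
      by_contra hcon
      push Not at hcon
      have : v ∈ {v | v ∈ Q m ∧ v ≠ c ∧ s / b < F (dsq c v)} := by
        refine ⟨h1, hv, ?_⟩
        rw [div_lt_iff₀ hb]
        linarith
      rw [h] at this
      exact this
    · refine ⟨fun _ => {v | v ∈ Q m ∧ (v = c ∨ s / b < F (dsq c v))}, fun _ => Or.inr h, ?_⟩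
      filter_upwards [hnull] with v hv
      apply propext
      show (v ∈ Q m ∧ s < g v) ↔
        v ∈ ⋃ i : Fin 1, {v | v ∈ Q m ∧ (v = c ∨ s / b < F (dsq c v))}
      simp only [mem_iUnion, mem_setOf_eq, exists_const]
      constructor
      · rintro ⟨h1, h2⟩
        rw [hg v h1 hv] at h2
        refine ⟨h1, Or.inr ?_⟩
        rw [div_lt_iff₀ hb]
        linarith
      · rintro ⟨h1, h2⟩
        have h3 := h2.resolve_left hv
        rw [div_lt_iff₀ hb] at h3
        refine ⟨h1, ?_⟩
        rw [hg v h1 hv]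
        linarith

end Pool.Agent.V1178.RS
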