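import Pool.Agent.V1178.RS.One
set_option autoImplicit false

/-! Unions of round convex sets have small perimeter. -/

namespace Pool.Agent.V1178.RS

open MeasureTheory Set
open scoped ENNReal NNReal

variable {m : ℕ}

/-- A convex set between two concentric cubes. -/
def Round (A : ℝ) (K : Set (Fin m → ℝ)) : Prop :=
  Convex ℝ K ∧ ∃ (a : Fin m → ℝ) (ρ : ℝ), 0 < ρ ∧ Metric.closedBall a ρ ⊆ K ∧
    K ⊆ Metric.closedBall a (A * ρ)

lemma round_bd {A : ℝ} {K : Set (Fin m → ℝ)} (hK : Convex ℝ K) {a : Fin m → ℝ} {ρ : ℝ}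
    (hρ : 0 < ρ) (h1 : Metric.closedBall a ρ ⊆ K) (h2 : K ⊆ Metric.closedBall a (A * ρ))
    (hm : 1 ≤ m) (h : Fin m → ℝ) :
    volume {v | v ∈ K ∧ v + h ∉ K} ≤ ENNReal.ofReal (m * (‖h‖ / ρ)) * volume K := by
  have hm' : (1 : ℝ) ≤ m := by exact_mod_cast hm
  have ht0 : 0 ≤ ‖h‖ / ρ := by positivity
  have hfin : volume K ≠ ∞ := by
    refine ne_top_of_le_ne_top ?_ (measure_mono h2)
    exact (Metric.isBounded_closedBall.measure_lt_top).ne
  rcases le_or_gt 1 (‖h‖ / ρ) with ht | ht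
  · calc volume {v | v ∈ K ∧ v + h ∉ K} ≤ volume K := measure_mono fun v hv => hv.1
      _ = ENNReal.ofReal 1 * volume K := by rw [ENNReal.ofReal_one, one_mul]
      _ ≤ _ := by
          gcongr
          nlinarith
  · obtain ⟨t, htt⟩ : ∃ t, t = ‖h‖ / ρ := ⟨_, rfl⟩
    rw [← htt] at ht ht0 ⊢
    have hth : ‖h‖ = t * ρ := by rw [htt]; field_simp
    rcases eq_or_lt_of_le ht0 with h0 | h0
    · have hh : h = 0 := by
        rw [← norm_eq_zero, hth, ← h0, zero_mul]
      have : {v | v ∈ K ∧ v + h ∉ K} = ∅ := by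
        ext v
        simp only [mem_setOf_eq, mem_empty_iff_false, iff_false, not_and, not_not]
        intro hv
        rw [hh, add_zero]
        exact hv
      rw [this, measure_empty]
      exact zero_le
    · obtain ⟨Kt, hKt⟩ : ∃ Kt : Set (Fin m → ℝ), Kt = AffineMap.homothety a (1 - t) '' K :=
        ⟨_, rfl⟩
      have ha : a ∈ K := h1 (Metric.mem_closedBall_self hρ.le)
      have hsub : Kt ⊆ K := by
        rw [hKt]
        rintro _ ⟨k, hk, rfl⟩
        rw [AffineMap.homothety_eq_lineMap]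
        exact hK.lineMap_mem ha hk ⟨by linarith, by linarith⟩
      have hmove : ∀ v ∈ Kt, v + h ∈ K := by
        rw [hKt]
        rintro _ ⟨k, hk, rfl⟩
        have hb : a + t⁻¹ • h ∈ K := by
          apply h1
          rw [Metric.mem_closedBall, dist_eq_norm, add_sub_cancel_left, norm_smul, norm_inv,
            Real.norm_of_nonneg h0.le, hth]
          field_simp
          rfl
        have h3 := hK hk hb (show 0 ≤ 1 - t by linarith) h0.le (by ring)
        have e : AffineMap.homothety a (1 - t) k + h = (1 - t) • k + t • (a + t⁻¹ • h) := by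
          rw [AffineMap.homothety_apply, smul_add, smul_smul, mul_inv_cancel₀ h0.ne', one_smul]
          ext i
          simp only [vsub_eq_sub, vadd_eq_add, Pi.add_apply, Pi.smul_apply, Pi.sub_apply,
            smul_eq_mul]
          ring
        rw [e]
        exact h3
      have hKtc : Convex ℝ Kt := by
        rw [hKt]
        exact hK.affine_image _
      have hvol : volume Kt = ENNReal.ofReal ((1 - t) ^ m) * volume K := by
        rw [hKt, Measure.addHaar_image_homothety, Module.finrank_fin_fun,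
          abs_of_nonneg (pow_nonneg (by linarith) m)]
      have hpw : 0 ≤ (1 - t) ^ m := pow_nonneg (by linarith) m
      have hbern : 1 - m * t ≤ (1 - t) ^ m := by
        have := one_add_mul_le_pow (show (-2 : ℝ) ≤ -t by linarith) m
        have e : (1 : ℝ) + -t = 1 - t := by ring
        rw [e] at this
        linarith
      calc volume {v | v ∈ K ∧ v + h ∉ K} ≤ volume (K \ Kt) :=
            measure_mono fun v hv => ⟨hv.1, fun hv' => hv.2 (hmove v hv')⟩
        _ = volume K - volume Kt :=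
            measure_sdiff hsub (hKtc.nullMeasurableSet volume)
              (ne_top_of_le_ne_top hfin (measure_mono hsub))
        _ ≤ _ := by
            rw [hvol, tsub_le_iff_right, ← add_mul, ← ENNReal.ofReal_add (by positivity) hpw]
            calc volume K = ENNReal.ofReal 1 * volume K := by rw [ENNReal.ofReal_one, one_mul]
              _ ≤ _ := by
                  gcongr
                  linarith

lemma round_out {A : ℝ} {K : Set (Fin m → ℝ)} (hK : Round A K) (hm : 1 ≤ m) (h : Fin m → ℝ) :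
    volume {v | v ∈ K ∧ v + h ∉ K} ≤
      ENNReal.ofReal (2 * m * A * ‖h‖) * volume K ^ (((m : ℝ) - 1) / m) := by
  obtain ⟨hc, a, ρ, hρ, h1, h2⟩ := hK
  refine (round_bd hc hρ h1 h2 hm h).trans ?_
  have hm' : (1 : ℝ) ≤ m := by exact_mod_cast hm
  have hm0 : (0 : ℝ) < m := by linarith
  have hfin : volume K ≠ ∞ := by
    refine ne_top_of_le_ne_top ?_ (measure_mono h2)
    exact (Metric.isBounded_closedBall.measure_lt_top).ne
  have hpos : volume K ≠ 0 := by
    refine ne_of_gt (lt_of_lt_of_le ?_ (measure_mono h1))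
    exact Metric.measure_closedBall_pos _ _ hρ
  obtain ⟨V, hV⟩ : ∃ V : ℝ, V = (volume K).toReal := ⟨_, rfl⟩
  have hV0 : 0 < V := by
    rw [hV]
    exact ENNReal.toReal_pos hpos hfin
  have eV : volume K = ENNReal.ofReal V := by rw [hV, ENNReal.ofReal_toReal hfin]
  have hA : 0 ≤ A * ρ := by
    by_contra hcon
    push Not at hcon
    have : Metric.closedBall a (A * ρ) = ∅ := Metric.closedBall_eq_empty.2 hcon
    have ha : a ∈ K := h1 (Metric.mem_closedBall_self hρ.le)
    have := h2 ha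
    rw [Metric.closedBall_eq_empty.2 hcon] at this
    exact this
  have hVle : V ≤ (2 * (A * ρ)) ^ m := by
    have h3 := measure_mono (μ := volume) h2
    rw [Real.volume_pi_closedBall a hA, eV, Fintype.card_fin] at h3
    exact (ENNReal.ofReal_le_ofReal_iff (by positivity)).1 h3
  have hroot : V ^ (1 / (m : ℝ)) ≤ 2 * (A * ρ) := by
    calc V ^ (1 / (m : ℝ)) ≤ ((2 * (A * ρ)) ^ m) ^ (1 / (m : ℝ)) :=
          Real.rpow_le_rpow hV0.le hVle (by positivity)
      _ = _ := by
          rw [← Real.rpow_natCast, ← Real.rpow_mul (by positivity), mul_one_div_cancel hm0.ne',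
            Real.rpow_one]
  have hA0 : 0 ≤ A := by
    rcases le_or_gt 0 A with h | h
    · exact h
    · nlinarith
  rw [eV, ENNReal.ofReal_rpow_of_pos hV0, ← ENNReal.ofReal_mul (by positivity),
    ← ENNReal.ofReal_mul (by positivity)]
  apply ENNReal.ofReal_le_ofReal
  have e1 : V = V ^ (((m : ℝ) - 1) / m) * V ^ (1 / (m : ℝ)) := by
    rw [← Real.rpow_add hV0]
    have : ((m : ℝ) - 1) / m + 1 / m = 1 := by field_simp; ring
    rw [this, Real.rpow_one]
  calc m * (‖h‖ / ρ) * V = m * (‖h‖ / ρ) * (V ^ (((m : ℝ) - 1) / m) * V ^ (1 / (m : ℝ))) := by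
        rw [← e1]
    _ ≤ m * (‖h‖ / ρ) * (V ^ (((m : ℝ) - 1) / m) * (2 * (A * ρ))) := by gcongr
    _ = _ := by field_simp

lemma round_in {A : ℝ} {K : Set (Fin m → ℝ)} (hK : Round A K) (hm : 1 ≤ m) (h : Fin m → ℝ) :
    volume {v | v + h ∈ K ∧ v ∉ K} ≤
      ENNReal.ofReal (2 * m * A * ‖h‖) * volume K ^ (((m : ℝ) - 1) / m) := by
  have h1 := round_out hK hm (-h)
  rw [norm_neg] at h1
  have e : {v | v + h ∈ K ∧ v ∉ K} = (fun v => v + h) ⁻¹' {v | v ∈ K ∧ v + -h ∉ K} := by
    ext v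
    simp only [mem_preimage, mem_setOf_eq, add_neg_cancel_right]
  rw [e, measure_preimage_add_right]
  exact h1

/-- Up to null sets, a union of at most `N` round convex sets. -/
def RoundUnion (N : ℕ) (A : ℝ) (S : Set (Fin m → ℝ)) : Prop :=
  ∃ K : Fin N → Set (Fin m → ℝ), (∀ i, K i = ∅ ∨ Round A (K i)) ∧ S =ᵐ[volume] ⋃ i, K i

lemma union_small0 {N : ℕ} {A : ℝ} (hA : 0 ≤ A) {S : Set (Fin m → ℝ)}
    {K : Fin N → Set (Fin m → ℝ)} (hK : ∀ i, K i = ∅ ∨ Round A (K i)) (hSK : S = ⋃ i, K i)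
    (hm : 1 ≤ m) (h : Fin m → ℝ) :
    volume {v | ¬ (v + h ∈ S ↔ v ∈ S)} ≤
      ENNReal.ofReal (4 * m * N * A * ‖h‖) * volume S ^ (((m : ℝ) - 1) / m) := by
  have hm' : (1 : ℝ) ≤ m := by exact_mod_cast hm
  have hκ : 0 ≤ ((m : ℝ) - 1) / m := div_nonneg (by linarith) (by linarith)
  have h1 : {v | ¬ (v + h ∈ S ↔ v ∈ S)} ⊆
      ⋃ i, ({v | v + h ∈ K i ∧ v ∉ K i} ∪ {v | v ∈ K i ∧ v + h ∉ K i}) := by
    intro v hv
    rw [hSK] at hv
    simp only [mem_setOf_eq, mem_iUnion] at hv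
    by_contra hcon
    simp only [mem_iUnion, mem_union, mem_setOf_eq, not_exists, not_or, not_and, not_not] at hcon
    apply hv
    constructor
    · rintro ⟨i, hi⟩
      exact ⟨i, (hcon i).1 hi⟩
    · rintro ⟨i, hi⟩
      exact ⟨i, (hcon i).2 hi⟩
  have h2 : ∀ i, volume ({v | v + h ∈ K i ∧ v ∉ K i} ∪ {v | v ∈ K i ∧ v + h ∉ K i}) ≤
      ENNReal.ofReal (4 * m * A * ‖h‖) * volume S ^ (((m : ℝ) - 1) / m) := by
    intro i
    rcases hK i with h3 | h3
    · have : ({v | v + h ∈ K i ∧ v ∉ K i} ∪ {v | v ∈ K i ∧ v + h ∉ K i}) = ∅ := by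
        rw [h3]
        ext v
        simp
      rw [this, measure_empty]
      exact zero_le
    · have hsub : K i ⊆ S := by
        rw [hSK]
        exact subset_iUnion K i
      calc volume ({v | v + h ∈ K i ∧ v ∉ K i} ∪ {v | v ∈ K i ∧ v + h ∉ K i})
          ≤ ENNReal.ofReal (2 * m * A * ‖h‖) * volume (K i) ^ (((m : ℝ) - 1) / m) +
            ENNReal.ofReal (2 * m * A * ‖h‖) * volume (K i) ^ (((m : ℝ) - 1) / m) :=
            (measure_union_le _ _).trans (add_le_add (round_in h3 hm h) (round_out h3 hm h))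
        _ = ENNReal.ofReal (4 * m * A * ‖h‖) * volume (K i) ^ (((m : ℝ) - 1) / m) := by
            rw [← add_mul, ← ENNReal.ofReal_add (by positivity) (by positivity)]
            congr 2
            ring
        _ ≤ _ := by gcongr
  refine (measure_mono h1).trans ((measure_iUnion_le _).trans ?_)
  rw [tsum_fintype]
  refine (Finset.sum_le_sum fun i _ => h2 i).trans (le_of_eq ?_)
  rw [Finset.sum_const, Finset.card_univ, Fintype.card_fin, nsmul_eq_mul, ← mul_assoc,
    ← ENNReal.ofReal_natCast, ← ENNReal.ofReal_mul (by positivity)]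
  congr 2
  ring

lemma union_small {N : ℕ} {A : ℝ} (hA : 0 ≤ A) {S : Set (Fin m → ℝ)} (hS : RoundUnion N A S)
    (hm : 1 ≤ m) (h : Fin m → ℝ) :
    volume {v | ¬ (v + h ∈ S ↔ v ∈ S)} ≤
      ENNReal.ofReal (4 * m * N * A * ‖h‖) * volume S ^ (((m : ℝ) - 1) / m) := by
  obtain ⟨K, hK, hSK⟩ := hS
  have h1 := union_small0 hA hK rfl hm h
  rw [← measure_congr hSK] at h1
  refine le_trans (le_of_eq (measure_congr ?_)) h1
  have h2 : ∀ᵐ v : Fin m → ℝ, (v ∈ S ↔ v ∈ ⋃ i, K i) := by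
    filter_upwards [hSK] with v hv
    exact iff_of_eq hv
  have h3 : ∀ᵐ v : Fin m → ℝ, (v + h ∈ S ↔ v + h ∈ ⋃ i, K i) :=
    (measurePreserving_add_right volume h).quasiMeasurePreserving.ae h2
  filter_upwards [h2, h3] with v a b
  apply propext
  show ¬ (v + h ∈ S ↔ v ∈ S) ↔ ¬ (v + h ∈ ⋃ i, K i ↔ v ∈ ⋃ i, K i)
  rw [a, b]

lemma small_of_round {N : ℕ} {A : ℝ} (hA : 0 ≤ A) {φ : (Fin m → ℝ) → ℝ≥0}
    (hφ : ∀ s : ℝ≥0, RoundUnion N A {v | v ∈ Q m ∧ s < φ v}) (hm : 1 ≤ m) (h : Fin m → ℝ) :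
    Small (((m : ℝ) - 1) / m) (ENNReal.ofReal (4 * m * N * A * ‖h‖)) h φ := by
  intro s
  refine le_trans (measure_mono ?_) (union_small hA (hφ s) hm h)
  rintro v ⟨⟨hv1, hv2⟩, hv3⟩
  intro hiff
  apply hv3
  constructor
  · intro h4
    exact (hiff.1 ⟨hv2, h4⟩).2
  · intro h4
    exact (hiff.2 ⟨hv1, h4⟩).2

end Pool.Agent.V1178.RS
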