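import Pool.Agent.V1178.RS.Two
import Pool.Agent.V1178.RS.Round
import Pool.Agent.Y247.QT.G
set_option autoImplicit false

/-! The extension estimate for functions whose superlevel sets have sections of small perimeter. -/

namespace Pool.Agent.V1178.RS

open MeasureTheory Set Complex
open scoped ENNReal NNReal

variable {m : ℕ}

/-- The diagonal quadratic exponential `exp (2 π i ∑ l_j ξ_j²)`. -/
noncomputable def chirp {n : ℕ} (l ξ : Fin n → ℝ) : ℂ :=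
  cexp (2 * Real.pi * I * ((∑ j, l j * ξ j ^ 2 : ℝ) : ℂ))

/-- the constant `K = 0` -/
lemma of_pos (q : ℝ) (C K : ℝ≥0) (J : ℝ≥0∞)
    (key : ∀ L : ℝ≥0, K ≤ L → L ≠ 0 → J ≤ (C * L : ℝ≥0∞) ^ q) : J ≤ (C * K : ℝ≥0∞) ^ q := by
  have hn : ∀ n : ℕ, J ≤ (C * (K + ((n : ℝ≥0∞) + 1)⁻¹) : ℝ≥0∞) ^ q := by
    intro n
    have h1 := key (K + ((n : ℝ≥0) + 1)⁻¹) le_self_add (by positivity)
    have h2 : (((K + ((n : ℝ≥0) + 1)⁻¹ : ℝ≥0)) : ℝ≥0∞) = K + ((n : ℝ≥0∞) + 1)⁻¹ := by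
      rw [ENNReal.coe_add, ENNReal.coe_inv (by positivity)]
      push_cast
      rfl
    rwa [h2] at h1
  have ht : Filter.Tendsto (fun n : ℕ => ((n : ℝ≥0∞) + 1)⁻¹) Filter.atTop (nhds 0) := by
    have h1 := ENNReal.tendsto_inv_nat_nhds_zero
    have h2 := (Filter.tendsto_add_atTop_iff_nat 1).mpr h1
    refine h2.congr fun n => ?_
    push_cast
    rfl
  have hlim : Filter.Tendsto (fun n : ℕ => (C * (K + ((n : ℝ≥0∞) + 1)⁻¹) : ℝ≥0∞) ^ q)
      Filter.atTop (nhds ((C * K : ℝ≥0∞) ^ q)) := by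
    have h1 : Filter.Tendsto (fun n : ℕ => (K : ℝ≥0∞) + ((n : ℝ≥0∞) + 1)⁻¹) Filter.atTop
        (nhds (K + 0)) := tendsto_const_nhds.add ht
    rw [add_zero] at h1
    have h2 := ENNReal.Tendsto.const_mul (a := (C : ℝ≥0∞)) h1 (Or.inr ENNReal.coe_ne_top)
    exact (ENNReal.continuous_rpow_const (y := q)).continuousAt.tendsto.comp h2
  exact ge_of_tendsto' hlim hn

/-- the starting theorem on diagonal twists, with `K = 0` allowed -/
theorem ext0 (hm : 1 ≤ m) (q p : ℝ) (hq : 2 * ((m : ℝ) + 2) / (m + 1) < q)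
    (hp2 : 2 ≤ p) (hp : ((m : ℝ) + 1) * q < p * ((m + 1) * (q - 1) - 2)) :
    ∃ C : ℝ≥0, ∀ (l : Fin (m + 1) → ℝ) (f : (Fin (m + 1) → ℝ) → ℂ) (K : ℝ≥0), Measurable f →
      (∫⁻ u in Icc (-1 : ℝ) 1, (∫⁻ v in Q m, ‖f (Fin.cons u v)‖ₑ ^ 2) ^ (p / 2)
        ≤ (K : ℝ≥0∞) ^ p) →
      (∀ h : Fin m → ℝ, ‖h‖ ≤ 1 →
        ∫⁻ u in Icc (-1 : ℝ) 1, (∫⁻ v in W h,
          ‖f (Fin.cons u (v + h)) - f (Fin.cons u v)‖ₑ ^ 2) ^ (p / 2)
        ≤ (K * ENNReal.ofReal (‖h‖ ^ ((m : ℝ) / (2 * (m + 2))))) ^ p) →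
      ∫⁻ y : (Fin (m + 1) → ℝ) × ℝ,
        ‖Pool.Agent.H728R3.SR.ext (fun ξ => f ξ * chirp l ξ) y‖ₑ ^ q ≤ (C * K : ℝ≥0∞) ^ q := by
  obtain ⟨C, hC⟩ := Pool.Agent.Y247.QT.mainExt hm q p hq hp2 hp
  refine ⟨C, ?_⟩
  intro l f K hf hN hM
  have hp0 : 0 ≤ p := by linarith
  apply of_pos
  intro L hKL hL0
  have hKL' : (K : ℝ≥0∞) ≤ L := by exact_mod_cast hKL
  set F : (Fin (m + 1) → ℝ) → ℂ := fun ξ => f ξ * Pool.Agent.W771.MD.qe 0 (l 0) (ξ 0) with hF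
  have hFm : Measurable F := by
    refine hf.mul ?_
    apply Continuous.measurable
    unfold Pool.Agent.W771.MD.qe
    fun_prop
  have hq1 : ∀ u : ℝ, ‖Pool.Agent.W771.MD.qe 0 (l 0) u‖ₑ = 1 := by
    intro u
    rw [← ofReal_norm, Pool.Agent.W771.MD.qe_norm, ENNReal.ofReal_one]
  have e1 : ∀ u (v : Fin m → ℝ), ‖F (Fin.cons u v)‖ₑ = ‖f (Fin.cons u v)‖ₑ := by
    intro u v
    simp only [hF, Fin.cons_zero, enorm_mul, hq1, mul_one]
  have e2 : ∀ u (v h : Fin m → ℝ), ‖F (Fin.cons u (v + h)) - F (Fin.cons u v)‖ₑ =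
      ‖f (Fin.cons u (v + h)) - f (Fin.cons u v)‖ₑ := by
    intro u v h
    simp only [hF, Fin.cons_zero]
    rw [← sub_mul, enorm_mul, hq1, mul_one]
  have h := hC (fun i => l i.succ) F hFm L (by exact_mod_cast hL0) ENNReal.coe_ne_top
    (by
      simp only [e1]
      exact hN.trans (ENNReal.rpow_le_rpow hKL' hp0))
    (by
      intro h hh
      simp only [e2]
      exact (hM h hh).trans (ENNReal.rpow_le_rpow (mul_le_mul' hKL' le_rfl) hp0))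
  have e : (fun ξ => f ξ * chirp l ξ) =
      Pool.Agent.Y247.QT.tw (fun i => l i.succ) F := by
    ext ξ
    unfold Pool.Agent.Y247.QT.tw
    simp only [hF]
    rw [mul_assoc]
    congr 1
    unfold chirp Pool.Agent.W771.MD.qe
    rw [← Complex.exp_sum, ← Complex.exp_add]
    congr 1
    rw [Fin.sum_univ_succ]
    have e5 : ∀ s : Fin m → ℝ, ((∑ i, s i : ℝ) : ℂ) = ∑ i, (s i : ℂ) := fun s => by push_cast; rfl
    rw [Complex.ofReal_add, e5, mul_add, Finset.mul_sum]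
    congr 1
    · congr 2
      ring
    · apply Finset.sum_congr rfl
      intro i _
      congr 2
      ring
  rw [e]
  exact h

/-- reduction to `p κ < 2` -/
lemma red (hm : 1 ≤ m) {κ p : ℝ} (hκ : 0 ≤ κ) (hp : 2 < p)
    (hpc : 2 * ((m : ℝ) + 2) ≤ p * (2 + m * κ)) :
    ∃ κ' : ℝ, 0 ≤ κ' ∧ κ' ≤ κ ∧ p * κ' < 2 ∧ 2 * ((m : ℝ) + 2) ≤ p * (2 + m * κ') := by
  have hm' : (1 : ℝ) ≤ m := by exact_mod_cast hm
  have hm0 : (0 : ℝ) < m := by linarith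
  have hp0 : 0 < p := by linarith
  rcases lt_or_ge (p * κ) 2 with h | h
  · exact ⟨κ, hκ, le_rfl, h, hpc⟩
  · obtain ⟨t, ht⟩ : ∃ t : ℝ, t = max 0 (2 - 2 * (p - 2) / m) := ⟨_, rfl⟩
    have ht0 : 0 ≤ t := by rw [ht]; exact le_max_left _ _
    have h1 : 0 < 2 * (p - 2) / m := by
      have : 0 < p - 2 := by linarith
      positivity
    have ht2 : t < 2 := by
      rw [ht]
      exact max_lt (by norm_num) (by linarith)
    have ht3 : 2 - 2 * (p - 2) / m ≤ t := by rw [ht]; exact le_max_right _ _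
    have e : p * (t / p) = t := by field_simp
    refine ⟨t / p, by positivity, ?_, by rw [e]; exact ht2, ?_⟩
    · rw [div_le_iff₀ hp0]
      linarith
    · have h2 : p * (2 + m * (t / p)) = 2 * p + m * t := by
        rw [mul_add, ← mul_assoc, mul_comm p m, mul_assoc, e]
        ring
      rw [h2]
      have h3 : m * (2 - 2 * (p - 2) / m) ≤ m * t := mul_le_mul_of_nonneg_left ht3 hm0.le
      have h4 : (m : ℝ) * (2 - 2 * (p - 2) / m) = 2 * m - 2 * (p - 2) := by field_simp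
      linarith

lemma small_mono {κ κ' : ℝ} (h0 : 0 ≤ κ') (h1 : κ' ≤ κ) (h2 : κ < 1) {η : ℝ} (hη : 0 ≤ η)
    {h : Fin m → ℝ} {φ : (Fin m → ℝ) → ℝ≥0} (hS : Small κ (ENNReal.ofReal η) h φ) :
    Small κ' (ENNReal.ofReal (2 ^ m * η)) h φ := by
  intro s
  refine (hS s).trans ?_
  obtain ⟨S, hSd⟩ : ∃ S, S = {v | v ∈ Q m ∧ s < φ v} := ⟨_, rfl⟩
  rw [← hSd]
  have hv : volume S ≤ ENNReal.ofReal (2 ^ m) := by
    refine (measure_mono (show S ⊆ Q m by rw [hSd]; exact fun v hv => hv.1)).trans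
      (le_of_eq ?_)
    rw [Real.volume_Icc_pi, Finset.prod_const, Finset.card_univ, Fintype.card_fin,
      ← ENNReal.ofReal_pow (by norm_num)]
    norm_num
  have h21 : (1 : ℝ≥0∞) ≤ ENNReal.ofReal (2 ^ m) := by
    rw [← ENNReal.ofReal_one]
    exact ENNReal.ofReal_le_ofReal (one_le_pow₀ (by norm_num))
  have e : volume S ^ κ = volume S ^ κ' * volume S ^ (κ - κ') := by
    rw [← ENNReal.rpow_add_of_nonneg _ _ h0 (by linarith), add_sub_cancel]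
  have h3 : volume S ^ (κ - κ') ≤ ENNReal.ofReal (2 ^ m) := by
    calc volume S ^ (κ - κ') ≤ ENNReal.ofReal (2 ^ m) ^ (κ - κ') :=
          ENNReal.rpow_le_rpow hv (by linarith)
      _ ≤ ENNReal.ofReal (2 ^ m) ^ (1 : ℝ) :=
          ENNReal.rpow_le_rpow_of_exponent_le h21 (by linarith)
      _ = _ := ENNReal.rpow_one _
  rw [e, ENNReal.ofReal_mul (by positivity)]
  calc ENNReal.ofReal η * (volume S ^ κ' * volume S ^ (κ - κ'))
      ≤ ENNReal.ofReal η * (volume S ^ κ' * ENNReal.ofReal (2 ^ m)) := by gcongr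
    _ = _ := by ring

/-- **The main estimate.** -/
theorem main (hm : 1 ≤ m) {κ p q : ℝ} (hκ : 0 ≤ κ) (hκ1 : κ < 1) (hp0 : 0 < p)
    (hpc : 2 * ((m : ℝ) + 2) ≤ p * (2 + m * κ)) (hq : 2 * ((m : ℝ) + 2) / (m + 1) < q)
    (hpq : ((m : ℝ) + 1) * q < p * ((m + 1) * (q - 1) - 2)) :
    ∃ C : ℝ≥0, ∀ (n : ℝ → ℝ) (f : (Fin (m + 1) → ℝ) → ℂ) (l : Fin (m + 1) → ℝ),
      (∀ u, 1 ≤ n u) → Measurable f →
      (∀ u ∈ Icc (-1 : ℝ) 1, ∀ i, ∀ h : Fin m → ℝ, ‖h‖ ≤ 1 →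
        Small κ (ENNReal.ofReal (n u * ‖h‖)) h fun v => pt i (f (Fin.cons u v))) →
      ∫⁻ y : (Fin (m + 1) → ℝ) × ℝ,
        ‖Pool.Agent.H728R3.SR.ext (fun ξ => f ξ * chirp l ξ) y‖ₑ ^ q ≤
        C * (∫⁻ u in Icc (-1 : ℝ) 1, ENNReal.ofReal (n u ^ (p * (m / (2 * (m + 2))))) *
          ∫⁻ v in Q m, ‖f (Fin.cons u v)‖ₑ ^ p) ^ (q / p) := by
  have hm' : (1 : ℝ) ≤ m := by exact_mod_cast hm
  have hm0 : (0 : ℝ) < m := by linarith
  have hq0 : 0 < q := by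
    refine lt_trans ?_ hq
    positivity
  have hp2 : 2 < p := by
    by_contra hcon
    push Not at hcon
    have h1 : p * (2 + m * κ) ≤ 2 * (2 + m * κ) := by gcongr
    have h2 : m * κ < m * 1 := by gcongr
    linarith
  obtain ⟨κ', k0, k1, k2, k3⟩ := red hm hκ hp2 hpc
  obtain ⟨C, hC⟩ := ext0 hm q p hq hp2.le hpq
  obtain ⟨θ, hθ⟩ : ∃ θ : ℝ, θ = p * ((m : ℝ) / (2 * (m + 2))) := ⟨_, rfl⟩
  have hθ0 : 0 ≤ θ := by rw [hθ]; positivity
  have hθ1 : θ * (2 * (1 - κ')) ≤ p - 2 := by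
    have e : θ * (2 * (1 - κ')) = p * m * (1 - κ') / (m + 2) := by
      rw [hθ]
      field_simp
    rw [e, div_le_iff₀ (by positivity)]
    nlinarith
  obtain ⟨B, hB⟩ : ∃ B : ℝ, B = 1 + (2 ^ m) ^ (p / 2) +
      ((8 * (4 / (2 - p * κ') + 4)) ^ (p / 2) + 4 ^ (p / 2) * (2 ^ m) ^ (p / 2)) *
        (2 ^ m) ^ θ := ⟨_, rfl⟩
  have hd : 0 < 2 - p * κ' := by linarith
  have hB1 : (2 ^ m) ^ (p / 2) ≤ B := by
    rw [hB]
    have : (0 : ℝ) ≤ ((8 * (4 / (2 - p * κ') + 4)) ^ (p / 2) + 4 ^ (p / 2) * (2 ^ m) ^ (p / 2)) *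
        (2 ^ m) ^ θ := by positivity
    linarith
  have hB2 : ((8 * (4 / (2 - p * κ') + 4)) ^ (p / 2) + 4 ^ (p / 2) * (2 ^ m) ^ (p / 2)) *
        (2 ^ m) ^ θ ≤ B := by
    rw [hB]
    have : (0 : ℝ) ≤ (2 ^ m) ^ (p / 2) := by positivity
    linarith
  have hB0 : 0 < B := by
    rw [hB]
    positivity
  obtain ⟨D, hD⟩ : ∃ D : ℝ≥0∞, D = ((C : ℝ≥0∞) * ENNReal.ofReal B ^ (1 / p)) ^ q + 1 := ⟨_, rfl⟩
  have hDt : D ≠ ∞ := by
    rw [hD]
    refine ENNReal.add_ne_top.2 ⟨ENNReal.rpow_ne_top_of_nonneg hq0.le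
      (ENNReal.mul_ne_top ENNReal.coe_ne_top
        (ENNReal.rpow_ne_top_of_nonneg (by positivity) ENNReal.ofReal_ne_top)), by simp⟩
  refine ⟨D.toNNReal, ?_⟩
  rw [ENNReal.coe_toNNReal hDt]
  intro n f l hn1 hf hS
  rw [← hθ]
  have hn0 : ∀ u, 0 ≤ n u := fun u => le_trans zero_le_one (hn1 u)
  -- the sections
  have hsec : ∀ u, Measurable fun v : Fin m → ℝ => f (Fin.cons u v) := fun u =>
    hf.comp (by fun_prop)
  obtain ⟨P, hP⟩ : ∃ P : ℝ≥0∞, P = ∫⁻ u in Icc (-1 : ℝ) 1, ENNReal.ofReal (n u ^ θ) *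
          ∫⁻ v in Q m, ‖f (Fin.cons u v)‖ₑ ^ p := ⟨_, rfl⟩
  rw [← hP]
  by_cases hPt : P = ∞
  · rw [hPt, ENNReal.top_rpow_of_pos (by positivity), ENNReal.mul_top (by rw [hD]; simp)]
    exact le_top
  obtain ⟨K0, hK0⟩ : ∃ K0 : ℝ≥0∞, K0 = (ENNReal.ofReal B * P) ^ (1 / p) := ⟨_, rfl⟩
  have hK0t : K0 ≠ ∞ := by
    rw [hK0]
    exact ENNReal.rpow_ne_top_of_nonneg (by positivity)
      (ENNReal.mul_ne_top ENNReal.ofReal_ne_top hPt)
  have hKp : K0 ^ p = ENNReal.ofReal B * P := by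
    rw [hK0, ← ENNReal.rpow_mul, one_div_mul_cancel hp0.ne', ENNReal.rpow_one]
  have key := hC l f K0.toNNReal hf ?_ ?_
  · -- conclusion
    rw [ENNReal.coe_toNNReal hK0t] at key
    refine key.trans ?_
    have e2 : ((C : ℝ≥0∞) * K0) ^ q =
        ((C : ℝ≥0∞) * ENNReal.ofReal B ^ (1 / p)) ^ q * P ^ (q / p) := by
      rw [hK0, ENNReal.mul_rpow_of_nonneg _ _ (show (0 : ℝ) ≤ 1 / p by positivity), ← mul_assoc,
        ENNReal.mul_rpow_of_nonneg _ _ hq0.le, ← ENNReal.rpow_mul P]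
      congr 2
      ring
    rw [e2]
    gcongr
    rw [hD]
    exact le_self_add
  · -- the norm
    rw [ENNReal.coe_toNNReal hK0t, hKp, hP, ← lintegral_const_mul' _ _ ENNReal.ofReal_ne_top]
    apply lintegral_mono
    intro u
    refine (norm_le (hsec u) hp2.le).trans ?_
    have h1 : (1 : ℝ≥0∞) ≤ ENNReal.ofReal (n u ^ θ) := by
      rw [← ENNReal.ofReal_one]
      exact ENNReal.ofReal_le_ofReal (Real.one_le_rpow (hn1 u) hθ0)
    calc ENNReal.ofReal ((2 ^ m) ^ (p / 2)) * ∫⁻ v in Q m, ‖f (Fin.cons u v)‖ₑ ^ p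
        ≤ ENNReal.ofReal B * (1 * ∫⁻ v in Q m, ‖f (Fin.cons u v)‖ₑ ^ p) := by
          rw [one_mul]
          gcongr
      _ ≤ _ := mul_le_mul_right (mul_le_mul_left h1 _) _
  · -- the translations
    intro h hh
    rw [ENNReal.coe_toNNReal hK0t, ENNReal.mul_rpow_of_nonneg _ _ hp0.le, hKp,
      ENNReal.ofReal_rpow_of_nonneg (by positivity) hp0.le, ← Real.rpow_mul (norm_nonneg _),
      mul_comm ((m : ℝ) / (2 * (m + 2))) p, ← hθ]
    by_cases h0 : h = 0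
    · refine le_trans (b := (0 : ℝ≥0∞)) (le_of_eq ?_) bot_le
      have e : ∀ u, (∫⁻ v in W h,
          ‖f (Fin.cons u (v + h)) - f (Fin.cons u v)‖ₑ ^ 2) ^ (p / 2) = 0 := by
        intro u
        rw [h0]
        simp only [add_zero, sub_self, enorm_zero, ne_eq, OfNat.ofNat_ne_zero, not_false_eq_true,
          zero_pow, lintegral_zero]
        exact ENNReal.zero_rpow_of_pos (by positivity)
      simp only [e, lintegral_zero]
    · have hpos : 0 < ‖h‖ := norm_pos_iff.2 h0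
      calc ∫⁻ u in Icc (-1 : ℝ) 1, (∫⁻ v in W h,
            ‖f (Fin.cons u (v + h)) - f (Fin.cons u v)‖ₑ ^ 2) ^ (p / 2)
          ≤ ∫⁻ u in Icc (-1 : ℝ) 1, ENNReal.ofReal (B * ‖h‖ ^ θ) *
              (ENNReal.ofReal (n u ^ θ) * ∫⁻ v in Q m, ‖f (Fin.cons u v)‖ₑ ^ p) := by
            apply setLIntegral_mono' measurableSet_Icc
            intro u hu
            have hη : 0 < 2 ^ m * (n u * ‖h‖) := by
              have : 0 < n u := lt_of_lt_of_le one_pos (hn1 u)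
              positivity
            have h1 := trans_all (hsec u) k0 (lt_of_le_of_lt k1 hκ1) hη hp2.le k2 hθ0 hθ1
              (fun i => small_mono k0 k1 hκ1 (mul_nonneg (hn0 u) hpos.le) (hS u hu i h hh))
            refine h1.trans ?_
            rw [← mul_assoc (ENNReal.ofReal (B * ‖h‖ ^ θ)), ← ENNReal.ofReal_mul (by positivity)]
            refine mul_le_mul_left (ENNReal.ofReal_le_ofReal ?_) _
            rw [Real.mul_rpow (by positivity) (mul_nonneg (hn0 u) hpos.le),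
              Real.mul_rpow (hn0 u) hpos.le]
            have h3 : 0 ≤ n u ^ θ * ‖h‖ ^ θ := mul_nonneg (Real.rpow_nonneg (hn0 u) _)
              (Real.rpow_nonneg hpos.le _)
            have h4 := mul_le_mul_of_nonneg_right hB2 h3
            calc _ = ((8 * (4 / (2 - p * κ') + 4)) ^ (p / 2) + 4 ^ (p / 2) * (2 ^ m) ^ (p / 2)) *
                  (2 ^ m) ^ θ * (n u ^ θ * ‖h‖ ^ θ) := by ring
              _ ≤ B * (n u ^ θ * ‖h‖ ^ θ) := h4
              _ = _ := by ring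
        _ = ENNReal.ofReal (B * ‖h‖ ^ θ) * P := by
            rw [lintegral_const_mul' _ _ ENNReal.ofReal_ne_top, hP]
        _ = _ := by
            rw [ENNReal.ofReal_mul hB0.le]
            ring

end Pool.Agent.V1178.RS
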