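import Mathlib
set_option autoImplicit false

/-! Functions of `m` variables whose superlevel sets have small perimeter: translations. -/

namespace Pool.Agent.V1178.RS

open MeasureTheory Set
open scoped ENNReal NNReal

/-- integral of `2 s` -/
lemma int_two {a b : ℝ} (ha : 0 ≤ a) (hab : a ≤ b) :
    ∫⁻ s in Ioo a b, ENNReal.ofReal (2 * s) = ENNReal.ofReal (b ^ 2 - a ^ 2) := by
  rw [← ofReal_integral_eq_lintegral_ofReal]
  · congr 1
    rw [← integral_Ioc_eq_integral_Ioo, ← intervalIntegral.integral_of_le hab,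
      intervalIntegral.integral_const_mul, integral_id]
    ring
  · exact ((continuous_const.mul continuous_id).integrableOn_Icc (a := a) (b := b)).mono_set
      Ioo_subset_Icc_self
  · filter_upwards [ae_restrict_mem measurableSet_Ioo] with s hs
    have := hs.1
    show (0 : ℝ) ≤ 2 * s
    linarith

/-- the integral of a power up to a level -/
lemma int_pow {r lam : ℝ} (hr : -1 < r) (hl : 0 ≤ lam) :
    ∫⁻ s in Ioc (0 : ℝ) lam, ENNReal.ofReal (s ^ r) = ENNReal.ofReal (lam ^ (r + 1) / (r + 1)) := by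
  rw [← ofReal_integral_eq_lintegral_ofReal]
  · congr 1
    rw [← intervalIntegral.integral_of_le hl, integral_rpow (Or.inl hr),
      Real.zero_rpow (by linarith)]
    ring
  · have := intervalIntegral.intervalIntegrable_rpow' (a := 0) (b := lam) hr
    rwa [intervalIntegrable_iff_integrableOn_Ioc_of_le hl] at this
  · filter_upwards [ae_restrict_mem measurableSet_Ioc] with s hs
    exact Real.rpow_nonneg hs.1.le _

/-- the square of the difference of the truncations as an integral over the levels -/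
lemma layer2 (a b lam : ℝ≥0) :
    ENNReal.ofReal ((((min a lam : ℝ≥0) : ℝ) - ((min b lam : ℝ≥0) : ℝ)) ^ 2) ≤
    ∫⁻ s in Ioc (0 : ℝ) lam, {s : ℝ | ¬ (s.toNNReal < a ↔ s.toNNReal < b)}.indicator
      (fun s => ENNReal.ofReal (2 * s)) s := by
  wlog hab : b ≤ a generalizing a b
  · have h := this b a (le_of_not_ge hab)
    have e : (((min b lam : ℝ≥0) : ℝ) - ((min a lam : ℝ≥0) : ℝ)) ^ 2 =
        (((min a lam : ℝ≥0) : ℝ) - ((min b lam : ℝ≥0) : ℝ)) ^ 2 := by ring
    rw [e] at h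
    refine h.trans (le_of_eq ?_)
    congr 1
    ext s
    congr 1
    ext s
    simp only [mem_setOf_eq]
    tauto
  have hsub : Ioo ((min b lam : ℝ≥0) : ℝ) ((min a lam : ℝ≥0) : ℝ) ⊆
      {s : ℝ | ¬ (s.toNNReal < a ↔ s.toNNReal < b)} ∩ Ioc (0 : ℝ) lam := by
    rintro s ⟨h1, h2⟩
    have hs0 : 0 ≤ s := (NNReal.coe_nonneg _).trans h1.le
    obtain ⟨t, ht⟩ : ∃ t : ℝ≥0, t = s.toNNReal := ⟨_, rfl⟩
    have hst : (t : ℝ) = s := by rw [ht, Real.coe_toNNReal _ hs0]
    rw [← hst] at h1 h2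
    have h1' : min b lam < t := by exact_mod_cast h1
    have h2' : t < min a lam := by exact_mod_cast h2
    have h3 := lt_min_iff.1 h2'
    have h4 : b < t := by
      rcases min_lt_iff.1 h1' with h | h
      · exact h
      · exact absurd (h.trans h3.2) (lt_irrefl _)
    refine ⟨?_, ?_, ?_⟩
    · show ¬ (s.toNNReal < a ↔ s.toNNReal < b)
      rw [← ht]
      intro hiff
      exact absurd (hiff.1 h3.1) (not_lt.2 h4.le)
    · rw [← hst]
      exact_mod_cast (zero_le.trans_lt h1' : (0 : ℝ≥0) < t)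
    · rw [← hst]
      exact_mod_cast h3.2.le
  have hmono : min b lam ≤ min a lam := min_le_min hab le_rfl
  have hmono' : ((min b lam : ℝ≥0) : ℝ) ≤ ((min a lam : ℝ≥0) : ℝ) := by exact_mod_cast hmono
  have hmeas : MeasurableSet {s : ℝ | ¬ (s.toNNReal < a ↔ s.toNNReal < b)} := by
    have e : {s : ℝ | ¬ (s.toNNReal < a ↔ s.toNNReal < b)} =
        ({s : ℝ | s.toNNReal < a} \ {s : ℝ | s.toNNReal < b}) ∪
        ({s : ℝ | s.toNNReal < b} \ {s : ℝ | s.toNNReal < a}) := by
      ext s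
      simp only [mem_setOf_eq, mem_union, mem_diff]
      tauto
    rw [e]
    have m : ∀ c : ℝ≥0, MeasurableSet {s : ℝ | s.toNNReal < c} := fun c =>
      measurableSet_lt measurable_real_toNNReal measurable_const
    exact ((m a).diff (m b)).union ((m b).diff (m a))
  rw [lintegral_indicator hmeas, Measure.restrict_restrict hmeas]
  refine le_trans ?_ (lintegral_mono_set hsub)
  rw [int_two (NNReal.coe_nonneg _) hmono']
  apply ENNReal.ofReal_le_ofReal
  have h0 := NNReal.coe_nonneg (min b lam)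
  nlinarith

variable {m : ℕ}

/-- The cube. -/
abbrev Q (m : ℕ) : Set (Fin m → ℝ) := Icc (fun _ : Fin m => (-1 : ℝ)) (fun _ => 1)

/-- The points of the cube which stay in the cube. -/
def W (h : Fin m → ℝ) : Set (Fin m → ℝ) := {v | v ∈ Q m ∧ v + h ∈ Q m}

lemma W_meas (h : Fin m → ℝ) : MeasurableSet (W h) :=
  measurableSet_Icc.inter (measurableSet_Icc.preimage (measurable_id.add_const h))

/-- The superlevel sets of `φ` in the cube change little under the translation by `h`. -/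
def Small (κ : ℝ) (η : ℝ≥0∞) (h : Fin m → ℝ) (φ : (Fin m → ℝ) → ℝ≥0) : Prop :=
  ∀ s : ℝ≥0, volume {v | v ∈ W h ∧ ¬ (s < φ (v + h) ↔ s < φ v)} ≤
    η * volume {v | v ∈ Q m ∧ s < φ v} ^ κ

/-- **Translations of truncations.** -/
lemma trans_trunc {φ : (Fin m → ℝ) → ℝ≥0} (hφ : Measurable φ) {κ η p L : ℝ} (hκ : 0 ≤ κ)
    (hη : 0 ≤ η) (hp : 0 < p) (hpκ : p * κ < 2) (hL : 0 ≤ L) {h : Fin m → ℝ}
    (hS : Small κ (ENNReal.ofReal η) h φ)
    (hP : ∫⁻ v in Q m, (φ v : ℝ≥0∞) ^ p ≤ ENNReal.ofReal L) (lam : ℝ≥0) :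
    ∫⁻ v in W h, ENNReal.ofReal ((((min (φ (v + h)) lam : ℝ≥0) : ℝ) -
      ((min (φ v) lam : ℝ≥0) : ℝ)) ^ 2) ≤
      ENNReal.ofReal (2 * η * L ^ κ * ((lam : ℝ) ^ (2 - p * κ) / (2 - p * κ))) := by
  have hm1 : Measurable fun z : (Fin m → ℝ) × ℝ => φ (z.1 + h) := hφ.comp (by fun_prop)
  have hm2 : Measurable fun z : (Fin m → ℝ) × ℝ => φ z.1 := hφ.comp measurable_fst
  have hm3 : Measurable fun z : (Fin m → ℝ) × ℝ => z.2.toNNReal :=
    measurable_real_toNNReal.comp measurable_snd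
  have hSm : MeasurableSet {z : (Fin m → ℝ) × ℝ |
      ¬ (z.2.toNNReal < φ (z.1 + h) ↔ z.2.toNNReal < φ z.1)} := by
    have e : {z : (Fin m → ℝ) × ℝ | ¬ (z.2.toNNReal < φ (z.1 + h) ↔ z.2.toNNReal < φ z.1)} =
        ({z : (Fin m → ℝ) × ℝ | z.2.toNNReal < φ (z.1 + h)} \
          {z : (Fin m → ℝ) × ℝ | z.2.toNNReal < φ z.1}) ∪
        ({z : (Fin m → ℝ) × ℝ | z.2.toNNReal < φ z.1} \
          {z : (Fin m → ℝ) × ℝ | z.2.toNNReal < φ (z.1 + h)}) := by
      ext s
      simp only [mem_setOf_eq, mem_union, mem_diff]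
      tauto
    rw [e]
    exact ((measurableSet_lt hm3 hm1).diff (measurableSet_lt hm3 hm2)).union
      ((measurableSet_lt hm3 hm2).diff (measurableSet_lt hm3 hm1))
  -- Chebyshev
  have hcheb : ∀ s : ℝ, 0 < s → volume {v | v ∈ Q m ∧ s.toNNReal < φ v} ≤
      ENNReal.ofReal (L * s ^ (-p)) := by
    intro s hs
    have hsp : 0 < s ^ p := Real.rpow_pos_of_pos hs p
    have hSs : MeasurableSet {v | v ∈ Q m ∧ s.toNNReal < φ v} :=
      measurableSet_Icc.inter
        (measurableSet_lt (f := fun _ : Fin m → ℝ => s.toNNReal) measurable_const hφ)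
    have h1 : ENNReal.ofReal (s ^ p) * volume {v | v ∈ Q m ∧ s.toNNReal < φ v} ≤
        ENNReal.ofReal L := by
      refine le_trans ?_ hP
      rw [← setLIntegral_const]
      calc ∫⁻ _ in {v | v ∈ Q m ∧ s.toNNReal < φ v}, ENNReal.ofReal (s ^ p)
          ≤ ∫⁻ v in {v | v ∈ Q m ∧ s.toNNReal < φ v}, (φ v : ℝ≥0∞) ^ p := by
            apply setLIntegral_mono' hSs
            intro v hv
            rw [← ENNReal.ofReal_rpow_of_nonneg hs.le hp.le]
            apply ENNReal.rpow_le_rpow _ hp.le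
            have h2 : (s.toNNReal : ℝ≥0∞) ≤ (φ v : ℝ≥0∞) := by exact_mod_cast hv.2.le
            exact h2
        _ ≤ _ := lintegral_mono_set fun v hv => hv.1
    have h2 : ENNReal.ofReal (L * s ^ (-p)) = ENNReal.ofReal L / ENNReal.ofReal (s ^ p) := by
      rw [Real.rpow_neg hs.le, ← ENNReal.ofReal_div_of_pos hsp, div_eq_mul_inv]
    rw [h2, ENNReal.le_div_iff_mul_le (Or.inl (by
      rw [ne_eq, ENNReal.ofReal_eq_zero, not_le]; exact hsp)) (Or.inl ENNReal.ofReal_ne_top),
      mul_comm]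
    exact h1
  have hind : Measurable fun z : (Fin m → ℝ) × ℝ => {z : (Fin m → ℝ) × ℝ |
      ¬ (z.2.toNNReal < φ (z.1 + h) ↔ z.2.toNNReal < φ z.1)}.indicator
      (fun z => ENNReal.ofReal (2 * z.2)) z :=
    Measurable.indicator (by fun_prop) hSm
  calc ∫⁻ v in W h, ENNReal.ofReal ((((min (φ (v + h)) lam : ℝ≥0) : ℝ) -
      ((min (φ v) lam : ℝ≥0) : ℝ)) ^ 2)
      ≤ ∫⁻ v in W h, ∫⁻ s in Ioc (0 : ℝ) lam,
        {z : (Fin m → ℝ) × ℝ | ¬ (z.2.toNNReal < φ (z.1 + h) ↔ z.2.toNNReal < φ z.1)}.indicator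
          (fun z => ENNReal.ofReal (2 * z.2)) (v, s) := lintegral_mono fun v => layer2 _ _ lam
    _ = ∫⁻ s in Ioc (0 : ℝ) lam, ∫⁻ v in W h,
        {z : (Fin m → ℝ) × ℝ | ¬ (z.2.toNNReal < φ (z.1 + h) ↔ z.2.toNNReal < φ z.1)}.indicator
          (fun z => ENNReal.ofReal (2 * z.2)) (v, s) := by
        apply lintegral_lintegral_swap
        exact hind.aemeasurable
    _ ≤ ∫⁻ s in Ioc (0 : ℝ) lam, ENNReal.ofReal (2 * η * L ^ κ) *
          ENNReal.ofReal (s ^ (1 - p * κ)) := by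
        apply setLIntegral_mono' measurableSet_Ioc
        intro s hs
        have hs0 : 0 < s := hs.1
        have e : (fun v => {z : (Fin m → ℝ) × ℝ | ¬ (z.2.toNNReal < φ (z.1 + h) ↔
            z.2.toNNReal < φ z.1)}.indicator (fun z => ENNReal.ofReal (2 * z.2)) (v, s)) =
            {v | ¬ (s.toNNReal < φ (v + h) ↔ s.toNNReal < φ v)}.indicator
              (fun _ => ENNReal.ofReal (2 * s)) := by
          ext v
          simp only [indicator, mem_setOf_eq]
        beta_reduce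
        rw [e]
        have hms : MeasurableSet {v | ¬ (s.toNNReal < φ (v + h) ↔ s.toNNReal < φ v)} := by
          have h5 : {v | ¬ (s.toNNReal < φ (v + h) ↔ s.toNNReal < φ v)} =
              (fun v : Fin m → ℝ => (v, s)) ⁻¹' {z : (Fin m → ℝ) × ℝ |
                ¬ (z.2.toNNReal < φ (z.1 + h) ↔ z.2.toNNReal < φ z.1)} := rfl
          rw [h5]
          exact hSm.preimage (by fun_prop)
        rw [lintegral_indicator_const hms, Measure.restrict_apply hms]
        have e2 : {v | ¬ (s.toNNReal < φ (v + h) ↔ s.toNNReal < φ v)} ∩ W h =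
            {v | v ∈ W h ∧ ¬ (s.toNNReal < φ (v + h) ↔ s.toNNReal < φ v)} := by
          ext v
          simp only [mem_inter_iff, mem_setOf_eq]
          tauto
        rw [e2]
        calc ENNReal.ofReal (2 * s) *
            volume {v | v ∈ W h ∧ ¬ (s.toNNReal < φ (v + h) ↔ s.toNNReal < φ v)}
            ≤ ENNReal.ofReal (2 * s) * (ENNReal.ofReal η *
              (ENNReal.ofReal (L * s ^ (-p))) ^ κ) := by
              gcongr
              exact (hS s.toNNReal).trans (by gcongr; exact hcheb s hs0)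
          _ = _ := by
              have h3 : 0 ≤ L * s ^ (-p) := by positivity
              rw [ENNReal.ofReal_rpow_of_nonneg h3 hκ, ← ENNReal.ofReal_mul hη,
                ← ENNReal.ofReal_mul (by positivity), ← ENNReal.ofReal_mul (by positivity)]
              congr 1
              rw [Real.mul_rpow hL (by positivity), ← Real.rpow_mul hs0.le,
                Real.rpow_sub hs0, Real.rpow_one, neg_mul, Real.rpow_neg hs0.le]
              field_simp
    _ = _ := by
        rw [lintegral_const_mul _ (by fun_prop), int_pow (by linarith) (NNReal.coe_nonneg _),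
          ← ENNReal.ofReal_mul (by positivity)]
        congr 3
        · ring_nf
        · ring

lemma tail_le {p : ℝ} (hp : 2 ≤ p) {a lam : ℝ≥0} (hl : 0 < lam) :
    ((a - lam : ℝ≥0) : ℝ) ^ 2 ≤ (lam : ℝ) ^ (2 - p) * (a : ℝ) ^ p := by
  rcases le_or_gt a lam with h | h
  · rw [tsub_eq_zero_of_le h]
    have : (0 : ℝ) ≤ (lam : ℝ) ^ (2 - p) * (a : ℝ) ^ p := by positivity
    simpa using this
  · have hl' : (0 : ℝ) < lam := by exact_mod_cast hl
    have ha : (0 : ℝ) < a := hl'.trans (by exact_mod_cast h)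
    have h1 : ((a - lam : ℝ≥0) : ℝ) ≤ a := by exact_mod_cast tsub_le_self
    calc ((a - lam : ℝ≥0) : ℝ) ^ 2 ≤ (a : ℝ) ^ 2 :=
          pow_le_pow_left₀ (NNReal.coe_nonneg _) h1 2
      _ = (a : ℝ) ^ (2 - p) * (a : ℝ) ^ p := by
          rw [← Real.rpow_add ha, ← Real.rpow_natCast]
          congr 1
          push_cast
          ring
      _ ≤ _ := by
          apply mul_le_mul_of_nonneg_right _ (by positivity)
          exact Real.rpow_le_rpow_of_nonpos hl' (by exact_mod_cast h.le) (by linarith)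

lemma point (a b lam : ℝ≥0) :
    ((a : ℝ) - b) ^ 2 ≤ 2 * (((min a lam : ℝ≥0) : ℝ) - ((min b lam : ℝ≥0) : ℝ)) ^ 2 +
      (2 * ((a - lam : ℝ≥0) : ℝ) ^ 2 + 2 * ((b - lam : ℝ≥0) : ℝ) ^ 2) := by
  obtain ⟨a', ha'⟩ : ∃ a', a' = min a lam := ⟨_, rfl⟩
  obtain ⟨b', hb'⟩ : ∃ b', b' = min b lam := ⟨_, rfl⟩
  obtain ⟨r, hr⟩ : ∃ r, r = a - lam := ⟨_, rfl⟩
  obtain ⟨s, hs⟩ : ∃ s, s = b - lam := ⟨_, rfl⟩
  have ea : a = a' + r := by
    rw [ha', hr]
    rcases le_total a lam with h | h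
    · rw [min_eq_left h, tsub_eq_zero_of_le h, add_zero]
    · rw [min_eq_right h, add_tsub_cancel_of_le h]
  have eb : b = b' + s := by
    rw [hb', hs]
    rcases le_total b lam with h | h
    · rw [min_eq_left h, tsub_eq_zero_of_le h, add_zero]
    · rw [min_eq_right h, add_tsub_cancel_of_le h]
  rw [← ha', ← hb', ← hr, ← hs, ea, eb]
  push_cast
  have h1 := mul_nonneg (NNReal.coe_nonneg r) (NNReal.coe_nonneg s)
  nlinarith [sq_nonneg (((a' : ℝ) - b') - ((r : ℝ) - s))]

/-- **Translations**, with a parameter. -/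
lemma trans_lam {φ : (Fin m → ℝ) → ℝ≥0} (hφ : Measurable φ) {κ η p L : ℝ} (hκ : 0 ≤ κ)
    (hη : 0 ≤ η) (hp : 2 ≤ p) (hpκ : p * κ < 2) (hL : 0 ≤ L) {h : Fin m → ℝ}
    (hS : Small κ (ENNReal.ofReal η) h φ)
    (hP : ∫⁻ v in Q m, (φ v : ℝ≥0∞) ^ p ≤ ENNReal.ofReal L) {lam : ℝ≥0} (hl : 0 < lam) :
    ∫⁻ v in W h, ENNReal.ofReal (((φ (v + h) : ℝ) - φ v) ^ 2) ≤
      ENNReal.ofReal (4 / (2 - p * κ) * (η * L ^ κ * (lam : ℝ) ^ (2 - p * κ)) +
        4 * ((lam : ℝ) ^ (2 - p) * L)) := by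
  have hl' : (0 : ℝ) < lam := by exact_mod_cast hl
  have hp0 : 0 ≤ p := by linarith
  have hφh : Measurable fun v => φ (v + h) := hφ.comp (by fun_prop)
  have hpt : ∀ v, ENNReal.ofReal (((φ (v + h) : ℝ) - φ v) ^ 2) ≤
      ENNReal.ofReal 2 * ENNReal.ofReal ((((min (φ (v + h)) lam : ℝ≥0) : ℝ) -
        ((min (φ v) lam : ℝ≥0) : ℝ)) ^ 2) +
      (ENNReal.ofReal (2 * (lam : ℝ) ^ (2 - p)) * (φ (v + h) : ℝ≥0∞) ^ p +
        ENNReal.ofReal (2 * (lam : ℝ) ^ (2 - p)) * (φ v : ℝ≥0∞) ^ p) := by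
    intro v
    have h1 := point (φ (v + h)) (φ v) lam
    have h2 := tail_le hp (a := φ (v + h)) hl
    have h3 := tail_le hp (a := φ v) hl
    have e2 : ∀ c : ℝ≥0, (c : ℝ≥0∞) ^ p = ENNReal.ofReal ((c : ℝ) ^ p) := fun c => by
      rw [← ENNReal.ofReal_rpow_of_nonneg (NNReal.coe_nonneg _) hp0, ENNReal.ofReal_coe_nnreal]
    rw [e2, e2, ← ENNReal.ofReal_mul (by positivity), ← ENNReal.ofReal_mul (by positivity),
      ← ENNReal.ofReal_mul (by positivity),
      ← ENNReal.ofReal_add (by positivity) (by positivity),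
      ← ENNReal.ofReal_add (by positivity) (by positivity)]
    apply ENNReal.ofReal_le_ofReal
    nlinarith
  have mA : Measurable fun v => ENNReal.ofReal ((((min (φ (v + h)) lam : ℝ≥0) : ℝ) -
        ((min (φ v) lam : ℝ≥0) : ℝ)) ^ 2) := by fun_prop
  have mC : Measurable fun v => (φ (v + h) : ℝ≥0∞) ^ p := by fun_prop
  have mD : Measurable fun v => (φ v : ℝ≥0∞) ^ p := by fun_prop
  refine (lintegral_mono hpt).trans ?_
  rw [lintegral_add_left (mA.const_mul _), lintegral_add_left (mC.const_mul _),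
    lintegral_const_mul _ mA, lintegral_const_mul _ mC, lintegral_const_mul _ mD]
  have h1 := trans_trunc hφ hκ hη (by linarith) hpκ hL hS hP lam
  have h2 : ∫⁻ v in W h, (φ v : ℝ≥0∞) ^ p ≤ ENNReal.ofReal L :=
    (lintegral_mono_set fun v hv => hv.1).trans hP
  have h3 : ∫⁻ v in W h, (φ (v + h) : ℝ≥0∞) ^ p ≤ ENNReal.ofReal L := by
    refine le_trans ?_ hP
    rw [← lintegral_indicator (W_meas h), ← lintegral_indicator measurableSet_Icc]
    calc ∫⁻ v, (W h).indicator (fun v => (φ (v + h) : ℝ≥0∞) ^ p) v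
        ≤ ∫⁻ v, (Q m).indicator (fun v => (φ v : ℝ≥0∞) ^ p) (v + h) := by
          apply lintegral_mono
          intro v
          by_cases hv : v ∈ W h
          · have h4 : v + h ∈ Q m := hv.2
            beta_reduce
            rw [indicator_of_mem hv, indicator_of_mem h4]
          · rw [indicator_of_notMem hv]
            exact zero_le
      _ = _ := lintegral_add_right_eq_self _ h
  have hd : 0 < 2 - p * κ := by linarith
  calc _ ≤ ENNReal.ofReal 2 *
        ENNReal.ofReal (2 * η * L ^ κ * ((lam : ℝ) ^ (2 - p * κ) / (2 - p * κ))) +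
        (ENNReal.ofReal (2 * (lam : ℝ) ^ (2 - p)) * ENNReal.ofReal L +
        ENNReal.ofReal (2 * (lam : ℝ) ^ (2 - p)) * ENNReal.ofReal L) := by
        gcongr
    _ = _ := by
        rw [← ENNReal.ofReal_mul (by positivity), ← ENNReal.ofReal_mul (by positivity),
          ← ENNReal.ofReal_add (by positivity) (by positivity),
          ← ENNReal.ofReal_add (by positivity) (by positivity)]
        congr 1
        field_simp
        ring

end Pool.Agent.V1178.RS
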