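import Pool.Agent.V1178.RS.One
import Pool.Agent.V1178.LI.Two
set_option autoImplicit false

/-! Complex functions of `m` variables: the optimal level of truncation. -/

namespace Pool.Agent.V1178.RS

open MeasureTheory Set
open scoped ENNReal NNReal

variable {m : ℕ}

/-- The four nonnegative parts. -/
noncomputable def pt (i : Fin 4) (z : ℂ) : ℝ≥0 :=
  match i with
  | 0 => z.re.toNNReal
  | 1 => (-z.re).toNNReal
  | 2 => z.im.toNNReal
  | 3 => (-z.im).toNNReal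

lemma pt_meas (i : Fin 4) : Measurable (pt i) := by
  have h1 := Complex.measurable_re
  have h2 := Complex.measurable_im
  fin_cases i
  · exact h1.real_toNNReal
  · exact h1.neg.real_toNNReal
  · exact h2.real_toNNReal
  · exact h2.neg.real_toNNReal

lemma pt_le (i : Fin 4) (z : ℂ) : (pt i z : ℝ) ≤ ‖z‖ := by
  have h1 := Complex.abs_re_le_norm z
  have h2 := Complex.abs_im_le_norm z
  have h0 := norm_nonneg z
  fin_cases i
  · show (z.re.toNNReal : ℝ) ≤ ‖z‖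
    rw [Real.coe_toNNReal']
    exact max_le ((le_abs_self _).trans h1) h0
  · show ((-z.re).toNNReal : ℝ) ≤ ‖z‖
    rw [Real.coe_toNNReal']
    exact max_le ((neg_le_abs _).trans h1) h0
  · show (z.im.toNNReal : ℝ) ≤ ‖z‖
    rw [Real.coe_toNNReal']
    exact max_le ((le_abs_self _).trans h2) h0
  · show ((-z.im).toNNReal : ℝ) ≤ ‖z‖
    rw [Real.coe_toNNReal']
    exact max_le ((neg_le_abs _).trans h2) h0

lemma real_sq (x y : ℝ) : (x - y) ^ 2 ≤ 2 * ((x.toNNReal : ℝ) - y.toNNReal) ^ 2 +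
    2 * (((-x).toNNReal : ℝ) - (-y).toNNReal) ^ 2 := by
  have hx : x = (x.toNNReal : ℝ) - ((-x).toNNReal : ℝ) := by
    rw [Real.coe_toNNReal', Real.coe_toNNReal']
    rcases le_total 0 x with h | h
    · rw [max_eq_left h, max_eq_right (by linarith)]; ring
    · rw [max_eq_right h, max_eq_left (by linarith)]; ring
  have hy : y = (y.toNNReal : ℝ) - ((-y).toNNReal : ℝ) := by
    rw [Real.coe_toNNReal', Real.coe_toNNReal']
    rcases le_total 0 y with h | h
    · rw [max_eq_left h, max_eq_right (by linarith)]; ring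
    · rw [max_eq_right h, max_eq_left (by linarith)]; ring
  obtain ⟨a, ha⟩ : ∃ a : ℝ, a = (x.toNNReal : ℝ) := ⟨_, rfl⟩
  obtain ⟨b, hb⟩ : ∃ b : ℝ, b = ((-x).toNNReal : ℝ) := ⟨_, rfl⟩
  obtain ⟨c, hc⟩ : ∃ c : ℝ, c = (y.toNNReal : ℝ) := ⟨_, rfl⟩
  obtain ⟨d, hd⟩ : ∃ d : ℝ, d = ((-y).toNNReal : ℝ) := ⟨_, rfl⟩
  rw [← ha, ← hb] at hx
  rw [← hc, ← hd] at hy
  rw [← ha, ← hb, ← hc, ← hd, hx, hy]
  nlinarith [sq_nonneg ((a - c) + (b - d))]

lemma norm_sq_le (z w : ℂ) : ‖z - w‖ ^ 2 ≤ ∑ i : Fin 4, 2 * ((pt i z : ℝ) - pt i w) ^ 2 := by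
  have h1 := real_sq z.re w.re
  have h2 := real_sq z.im w.im
  have e : ‖z - w‖ ^ 2 = (z.re - w.re) ^ 2 + (z.im - w.im) ^ 2 := by
    rw [← Complex.normSq_eq_norm_sq, Complex.normSq_apply, Complex.sub_re, Complex.sub_im]
    ring
  rw [e, Fin.sum_univ_four]
  have e0 : ∀ z : ℂ, pt 0 z = z.re.toNNReal := fun _ => rfl
  have e1 : ∀ z : ℂ, pt 1 z = (-z.re).toNNReal := fun _ => rfl
  have e2 : ∀ z : ℂ, pt 2 z = z.im.toNNReal := fun _ => rfl
  have e3 : ∀ z : ℂ, pt 3 z = (-z.im).toNNReal := fun _ => rfl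
  rw [e0, e0, e1, e1, e2, e2, e3, e3]
  linarith

/-- the translations of a complex function, with a parameter -/
lemma cplx_lam {F : (Fin m → ℝ) → ℂ} (hF : Measurable F) {κ η p L : ℝ} (hκ : 0 ≤ κ)
    (hη : 0 ≤ η) (hp : 2 ≤ p) (hpκ : p * κ < 2) (hL : 0 ≤ L) {h : Fin m → ℝ}
    (hS : ∀ i, Small κ (ENNReal.ofReal η) h fun v => pt i (F v))
    (hP : ∫⁻ v in Q m, ‖F v‖ₑ ^ p ≤ ENNReal.ofReal L) {lam : ℝ≥0} (hl : 0 < lam) :
    ∫⁻ v in W h, ‖F (v + h) - F v‖ₑ ^ 2 ≤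
      ENNReal.ofReal (8 * (4 / (2 - p * κ) * (η * L ^ κ * (lam : ℝ) ^ (2 - p * κ)) +
        4 * ((lam : ℝ) ^ (2 - p) * L))) := by
  have hp0 : 0 ≤ p := by linarith
  have hd : 0 < 2 - p * κ := by linarith
  have hl' : (0 : ℝ) < lam := by exact_mod_cast hl
  have hφ : ∀ i, Measurable fun v => pt i (F v) := fun i => (pt_meas i).comp hF
  have hφh : ∀ i, Measurable fun v => pt i (F (v + h)) := fun i =>
    (hφ i).comp (measurable_id.add_const h)
  have h1 : ∀ i, ∫⁻ v in W h, ENNReal.ofReal (((pt i (F (v + h)) : ℝ) - pt i (F v)) ^ 2) ≤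
      ENNReal.ofReal (4 / (2 - p * κ) * (η * L ^ κ * (lam : ℝ) ^ (2 - p * κ)) +
        4 * ((lam : ℝ) ^ (2 - p) * L)) := by
    intro i
    refine trans_lam (hφ i) hκ hη hp hpκ hL (hS i) ?_ hl
    refine le_trans (lintegral_mono fun v => ?_) hP
    apply ENNReal.rpow_le_rpow _ hp0
    rw [← ofReal_norm, ← ENNReal.ofReal_coe_nnreal]
    exact ENNReal.ofReal_le_ofReal (pt_le i _)
  calc ∫⁻ v in W h, ‖F (v + h) - F v‖ₑ ^ 2
      ≤ ∫⁻ v in W h, ∑ i : Fin 4, ENNReal.ofReal 2 *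
          ENNReal.ofReal (((pt i (F (v + h)) : ℝ) - pt i (F v)) ^ 2) := by
        apply lintegral_mono
        intro v
        simp only
        rw [← ofReal_norm, ← ENNReal.ofReal_pow (norm_nonneg _)]
        refine (ENNReal.ofReal_le_ofReal (norm_sq_le _ _)).trans (le_of_eq ?_)
        rw [ENNReal.ofReal_sum_of_nonneg fun i _ => by positivity]
        exact Finset.sum_congr rfl fun i _ => ENNReal.ofReal_mul (by norm_num)
    _ = ∑ i : Fin 4, ENNReal.ofReal 2 * ∫⁻ v in W h,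
          ENNReal.ofReal (((pt i (F (v + h)) : ℝ) - pt i (F v)) ^ 2) := by
        have hmi : ∀ i : Fin 4, Measurable fun v =>
            ENNReal.ofReal (((pt i (F (v + h)) : ℝ) - pt i (F v)) ^ 2) := by
          intro i
          have a := hφ i
          have b := hφh i
          fun_prop
        rw [lintegral_finsetSum _ fun i _ => (hmi i).const_mul _]
        exact Finset.sum_congr rfl fun i _ => lintegral_const_mul _ (hmi i)
    _ ≤ ∑ _i : Fin 4, ENNReal.ofReal 2 *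
          ENNReal.ofReal (4 / (2 - p * κ) * (η * L ^ κ * (lam : ℝ) ^ (2 - p * κ)) +
        4 * ((lam : ℝ) ^ (2 - p) * L)) :=
        Finset.sum_le_sum fun i _ => mul_le_mul_right (h1 i) _
    _ = _ := by
        rw [Finset.sum_const, Finset.card_univ, Fintype.card_fin,
          ← ENNReal.ofReal_mul (by norm_num), nsmul_eq_mul]
        have : ((4 : ℕ) : ℝ≥0∞) = ENNReal.ofReal 4 := by simp
        rw [this, ← ENNReal.ofReal_mul (by norm_num)]
        congr 1
        ring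

/-- the `L²` norm and the `L^p` norm on the cube -/
lemma norm_le {F : (Fin m → ℝ) → ℂ} (hF : Measurable F) {p : ℝ} (hp : 2 ≤ p) :
    (∫⁻ v in Q m, ‖F v‖ₑ ^ 2) ^ (p / 2) ≤
      ENNReal.ofReal ((2 ^ m) ^ (p / 2)) * ∫⁻ v in Q m, ‖F v‖ₑ ^ p := by
  have hp0 : 0 < p := by linarith
  have h2 := eLpNorm'_le_eLpNorm'_mul_rpow_measure_univ (f := F)
    (show (0 : ℝ) < 2 by norm_num) hp hF.aestronglyMeasurable (μ := volume.restrict (Q m))
  unfold eLpNorm' at h2
  have hv : (volume.restrict (Q m)) univ = ENNReal.ofReal (2 ^ m) := by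
    rw [Measure.restrict_apply_univ, Real.volume_Icc_pi, Finset.prod_const, Finset.card_univ,
      Fintype.card_fin, ← ENNReal.ofReal_pow (by norm_num)]
    norm_num
  rw [hv] at h2
  have e : ∀ v, ‖F v‖ₑ ^ 2 = ‖F v‖ₑ ^ (2 : ℝ) := fun v => by
    rw [← ENNReal.rpow_natCast]; norm_num
  simp only [e]
  have h21 : (1 : ℝ) ≤ 2 ^ m := one_le_pow₀ (by norm_num)
  calc (∫⁻ v in Q m, ‖F v‖ₑ ^ (2 : ℝ)) ^ (p / 2)
      = ((∫⁻ v in Q m, ‖F v‖ₑ ^ (2 : ℝ)) ^ (1 / 2 : ℝ)) ^ p := by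
        rw [← ENNReal.rpow_mul]
        congr 1
        ring
    _ ≤ ((∫⁻ v in Q m, ‖F v‖ₑ ^ p) ^ (1 / p) *
          ENNReal.ofReal (2 ^ m) ^ (1 / 2 - 1 / p)) ^ p := by gcongr
    _ = (∫⁻ v in Q m, ‖F v‖ₑ ^ p) * ENNReal.ofReal ((2 ^ m) ^ ((1 / 2 - 1 / p) * p)) := by
        rw [ENNReal.mul_rpow_of_nonneg _ _ hp0.le, ← ENNReal.rpow_mul,
          one_div_mul_cancel hp0.ne', ENNReal.rpow_one, ← ENNReal.rpow_mul,
          ENNReal.ofReal_rpow_of_pos (by positivity)]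
    _ ≤ _ := by
        rw [mul_comm]
        gcongr
        have : (1 / 2 - 1 / p) * p = p / 2 - 1 := by field_simp
        linarith

/-- **Translations.** -/
lemma trans_all {F : (Fin m → ℝ) → ℂ} (hF : Measurable F) {κ η p θ : ℝ} (hκ : 0 ≤ κ)
    (hκ1 : κ < 1) (hη : 0 < η) (hp : 2 ≤ p) (hpκ : p * κ < 2) (hθ : 0 ≤ θ)
    (hθ1 : θ * (2 * (1 - κ)) ≤ p - 2) {h : Fin m → ℝ}
    (hS : ∀ i, Small κ (ENNReal.ofReal η) h fun v => pt i (F v)) :
    (∫⁻ v in W h, ‖F (v + h) - F v‖ₑ ^ 2) ^ (p / 2) ≤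
      ENNReal.ofReal (((8 * (4 / (2 - p * κ) + 4)) ^ (p / 2) + 4 ^ (p / 2) * (2 ^ m) ^ (p / 2)) *
        η ^ θ) * ∫⁻ v in Q m, ‖F v‖ₑ ^ p := by
  have hp0 : 0 < p := by linarith
  have hd : 0 < 2 - p * κ := by linarith
  have hκ' : 0 < 1 - κ := by linarith
  obtain ⟨B₁, hB₁⟩ : ∃ B : ℝ, B = 8 * (4 / (2 - p * κ) + 4) := ⟨_, rfl⟩
  have hB₁0 : 0 < B₁ := by rw [hB₁]; positivity
  rw [← hB₁]
  rcases le_or_gt 1 η with hc | hc
  · -- large translations
    have hF2 : Measurable fun v => ‖F v‖ₑ ^ 2 := hF.enorm.pow_const 2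
    have hFh : Measurable fun v => ‖F (v + h)‖ₑ ^ 2 := hF2.comp (measurable_id.add_const h)
    have h1 : ∫⁻ v in W h, ‖F (v + h) - F v‖ₑ ^ 2 ≤ 4 * ∫⁻ v in Q m, ‖F v‖ₑ ^ 2 := by
      calc ∫⁻ v in W h, ‖F (v + h) - F v‖ₑ ^ 2
          ≤ ∫⁻ v in W h, (2 * ‖F (v + h)‖ₑ ^ 2 + 2 * ‖F v‖ₑ ^ 2) := by
            apply lintegral_mono
            intro v
            simp only
            obtain ⟨x, hx⟩ : ∃ x : ℂ, x = F (v + h) := ⟨_, rfl⟩
            obtain ⟨y, hy⟩ : ∃ y : ℂ, y = F v := ⟨_, rfl⟩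
            rw [← hx, ← hy]
            have e1 : ∀ z : ℂ, ‖z‖ₑ ^ 2 = ENNReal.ofReal (‖z‖ ^ 2) := fun z => by
              rw [← ofReal_norm, ENNReal.ofReal_pow (norm_nonneg _)]
            have e2 : (2 : ℝ≥0∞) = ENNReal.ofReal 2 := by simp
            rw [e1, e1, e1, e2, ← ENNReal.ofReal_mul (by norm_num),
              ← ENNReal.ofReal_mul (by norm_num), ← ENNReal.ofReal_add (by positivity)
              (by positivity)]
            apply ENNReal.ofReal_le_ofReal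
            have h2 : ‖x - y‖ ≤ ‖x‖ + ‖y‖ := norm_sub_le _ _
            have h3 : ‖x - y‖ ^ 2 ≤ (‖x‖ + ‖y‖) ^ 2 := pow_le_pow_left₀ (norm_nonneg _) h2 2
            nlinarith [sq_nonneg (‖x‖ - ‖y‖)]
        _ = 2 * (∫⁻ v in W h, ‖F (v + h)‖ₑ ^ 2) + 2 * (∫⁻ v in W h, ‖F v‖ₑ ^ 2) := by
            rw [lintegral_add_left (hFh.const_mul _), lintegral_const_mul _ hFh,
              lintegral_const_mul _ hF2]
        _ ≤ 2 * (∫⁻ v in Q m, ‖F v‖ₑ ^ 2) + 2 * (∫⁻ v in Q m, ‖F v‖ₑ ^ 2) := by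
            refine add_le_add (mul_le_mul_right ?_ _) (mul_le_mul_right ?_ _)
            · rw [← lintegral_indicator (W_meas h), ← lintegral_indicator measurableSet_Icc]
              calc ∫⁻ v, (W h).indicator (fun v => ‖F (v + h)‖ₑ ^ 2) v
                  ≤ ∫⁻ v, (Q m).indicator (fun v => ‖F v‖ₑ ^ 2) (v + h) := by
                    apply lintegral_mono
                    intro v
                    by_cases hv : v ∈ W h
                    · have h4 : v + h ∈ Q m := hv.2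
                      beta_reduce
                      rw [indicator_of_mem hv, indicator_of_mem h4]
                    · rw [indicator_of_notMem hv]
                      exact zero_le
                _ = _ := lintegral_add_right_eq_self _ h
            · exact lintegral_mono_set fun v hv => hv.1
        _ = _ := by ring
    have h2 := norm_le hF hp (m := m)
    calc (∫⁻ v in W h, ‖F (v + h) - F v‖ₑ ^ 2) ^ (p / 2)
        ≤ (4 * ∫⁻ v in Q m, ‖F v‖ₑ ^ 2) ^ (p / 2) := by gcongr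
      _ = ENNReal.ofReal (4 ^ (p / 2)) * (∫⁻ v in Q m, ‖F v‖ₑ ^ 2) ^ (p / 2) := by
          rw [ENNReal.mul_rpow_of_nonneg _ _ (by positivity),
            ← ENNReal.ofReal_rpow_of_nonneg (by norm_num) (by positivity)]
          simp
      _ ≤ ENNReal.ofReal (4 ^ (p / 2)) *
            (ENNReal.ofReal ((2 ^ m) ^ (p / 2)) * ∫⁻ v in Q m, ‖F v‖ₑ ^ p) := by gcongr
      _ ≤ _ := by
          rw [← mul_assoc, ← ENNReal.ofReal_mul (by positivity)]
          refine mul_le_mul_left (ENNReal.ofReal_le_ofReal ?_) _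
          have h5 : (1 : ℝ) ≤ η ^ θ := Real.one_le_rpow hc hθ
          have h6 : (0 : ℝ) ≤ 4 ^ (p / 2) * (2 ^ m) ^ (p / 2) := by positivity
          have h7 : (0 : ℝ) ≤ B₁ ^ (p / 2) := by positivity
          have h8 := mul_nonneg (add_nonneg h7 h6) (sub_nonneg.2 h5)
          linarith
  · apply Pool.Agent.V1178.LI.le_mul_of_forall ENNReal.ofReal_ne_top
    · rw [ne_eq, ENNReal.ofReal_eq_zero, not_le]
      positivity
    intro L hL0 hPL
    have hL0' : (0 : ℝ) < L := by exact_mod_cast hL0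
    obtain ⟨l, hl⟩ : ∃ l : ℝ, l = ((L : ℝ) ^ (1 - κ) / η) ^ (1 / (p * (1 - κ))) := ⟨_, rfl⟩
    have hl0 : 0 < l := by rw [hl]; positivity
    have hlp : l ^ (p * (1 - κ)) = (L : ℝ) ^ (1 - κ) / η := by
      rw [hl, ← Real.rpow_mul (by positivity), one_div_mul_cancel (by positivity), Real.rpow_one]
    have key := cplx_lam hF hκ hη.le hp hpκ hL0'.le hS (L := (L : ℝ)) (by
      rw [ENNReal.ofReal_coe_nnreal]; exact hPL) (lam := l.toNNReal) (Real.toNNReal_pos.2 hl0)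
    rw [Real.coe_toNNReal _ hl0.le] at key
    have e1 : η * (L : ℝ) ^ κ * l ^ (2 - p * κ) = l ^ (2 - p) * L := by
      have e2 : l ^ (2 - p * κ) = l ^ (2 - p) * l ^ (p * (1 - κ)) := by
        rw [← Real.rpow_add hl0]
        congr 1
        ring
      have e3 : (L : ℝ) ^ κ * (L : ℝ) ^ (1 - κ) = L := by
        rw [← Real.rpow_add hL0', add_sub_cancel, Real.rpow_one]
      rw [e2, hlp]
      calc η * (L : ℝ) ^ κ * (l ^ (2 - p) * ((L : ℝ) ^ (1 - κ) / η))
          = l ^ (2 - p) * ((L : ℝ) ^ κ * (L : ℝ) ^ (1 - κ)) := by field_simp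
        _ = _ := by rw [e3]
    rw [e1] at key
    have e4 : 8 * (4 / (2 - p * κ) * (l ^ (2 - p) * L) + 4 * (l ^ (2 - p) * L)) =
        B₁ * (l ^ (2 - p) * L) := by
      rw [hB₁]; ring
    rw [e4] at key
    have e5 : (B₁ * (l ^ (2 - p) * L)) ^ (p / 2) =
        B₁ ^ (p / 2) * η ^ ((p - 2) / (2 * (1 - κ))) * L := by
      have hlL : 0 < l ^ (2 - p) * L := by positivity
      rw [Real.mul_rpow hB₁0.le hlL.le, mul_assoc]
      congr 1
      rw [Real.mul_rpow (by positivity) hL0'.le, ← Real.rpow_mul hl0.le]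
      have e6 : (2 - p) * (p / 2) = p * (1 - κ) * ((2 - p) / (2 * (1 - κ))) := by
        field_simp
      rw [e6, Real.rpow_mul hl0.le, hlp, Real.div_rpow (by positivity) hη.le,
        ← Real.rpow_mul hL0'.le]
      have e7 : (1 - κ) * ((2 - p) / (2 * (1 - κ))) = 1 - p / 2 := by
        field_simp
      have e8 : (p - 2) / (2 * (1 - κ)) = -((2 - p) / (2 * (1 - κ))) := by ring
      rw [e7, e8, Real.rpow_neg hη.le]
      have e9 : (L : ℝ) ^ (1 - p / 2) * (L : ℝ) ^ (p / 2) = L := by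
        rw [← Real.rpow_add hL0', sub_add_cancel, Real.rpow_one]
      rw [div_mul_eq_mul_div, e9]
      field_simp
    have e10 : η ^ ((p - 2) / (2 * (1 - κ))) ≤ η ^ θ := by
      apply Real.rpow_le_rpow_of_exponent_ge hη hc.le
      rw [le_div_iff₀ (by positivity)]
      exact hθ1
    calc (∫⁻ v in W h, ‖F (v + h) - F v‖ₑ ^ 2) ^ (p / 2)
        ≤ (ENNReal.ofReal (B₁ * (l ^ (2 - p) * L))) ^ (p / 2) := by gcongr
      _ = ENNReal.ofReal (B₁ ^ (p / 2) * η ^ ((p - 2) / (2 * (1 - κ)))) * L := by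
          rw [ENNReal.ofReal_rpow_of_nonneg (by positivity) (by positivity), e5,
            ENNReal.ofReal_mul (by positivity), ENNReal.ofReal_coe_nnreal]
      _ ≤ _ := by
          gcongr
          have h6 : (0 : ℝ) ≤ 4 ^ (p / 2) * (2 ^ m) ^ (p / 2) := by positivity
          have h7 : (0 : ℝ) ≤ B₁ ^ (p / 2) := by positivity
          have h8 : 0 ≤ η ^ θ := by positivity
          have h9 := mul_nonneg h6 h8
          have h10 := mul_le_mul_of_nonneg_left e10 h7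
          linarith

end Pool.Agent.V1178.RS
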